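import Pool.Agent.HComm.Transfer

/-!
# A reduction of Herstein's question

Let `R` be a ring (an identity element is not assumed) without nonzero nil two-sided ideals.  If
`[x, y] + c` is nilpotent for all `x, y` and all `c` such that the right ideal generated by `c` is
nil, then `R` is commutative.

Proof.  Let `b ^ m = 0`, let `c` generate a nil right ideal and `w = b + c`.  Modulo `[w, R]` every
product of factors `w` and `c` which contains a factor `c` may be rotated so that it starts with
`c`; so `w ^ m = w ^ m - b ^ m` is of the form `[w, g] + c h` and `w` is nilpotent.  Hence sums of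
elements of nil right ideals are nilpotent.  If `a ^ 2 = 0` then `a R` is nil, so the ideal generated
by `a` is nil, and `a = 0`.
-/

namespace Pool.Agent.Results.MP_79e160_al.CommutatorPlusNil

open Pool.Agent.HComm Unitization

theorem result (R : Type*) [NonUnitalRing R]
    (hno : ∀ I : TwoSidedIdeal R, (∀ x ∈ I, Nilp x) → ∀ x ∈ I, x = 0)
    (h : ∀ x y c : R, Nilp c → (∀ r : R, Nilp (c * r)) → Nilp ((x * y - y * x) + c)) :
    ∀ x y : R, x * y = y * x := by
  have key := coreB (S := Unitization ℤ R) (noNil_unit hno) (by
    intro x y c hc
    obtain ⟨h1, h2, h3⟩ := nilR_snd hc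
    rw [comm_eq, h1, ← inr_add]
    exact (nilp_iff _).1 (h _ _ _ h2 h3))
  intro x y
  have h8 := key (inr x) (inr y)
  rw [← inr_mul, ← inr_mul] at h8
  exact inr_injective h8

end Pool.Agent.Results.MP_79e160_al.CommutatorPlusNil
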