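import Pool.Agent.Koe.Main2

/-!
# Rings without nil ideals in which Herstein's condition holds on almost half of the ring

For every countable field `K` and every `q ≥ 1` there is a prime `K`-algebra `R` without nonzero nil ideals, not commutative, with
central elements `Z`, right ideals `I 0, …, I (2 q)` and a set `D` containing them, `R D ⊆ D`, `D R ⊆ D`, such that every element of `R`
is in `Z + I 0 + … + I (2 q)`, every sum of `2 q` elements of `D` is nilpotent, every sum of `q` commutators `[d, y]`, `d ∈ D`, `y ∈ R`,
is nilpotent, and so `[x, y]` is nilpotent for all `y ∈ R` and all `x ∈ Z + (sums of q elements of D)`.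

Proof (`Pool/Agent/Koe`).  `F` = algebraic closure of `K`, `d = 2 q + 1`.  The free algebra on `x_0, …, x_d` acts on the sequences `φ`
by `(x_j φ)(i) = f_i(j) φ(i + 1)`, `f_i` nonzero vectors.  Given a matrix `h` of size `k < d` over the augmentation ideal, let `t` mark
the factors in the powers of `h`; the transfer matrix of `h` along a word of vectors has minors of degree at most `k L` in `t`, `L` the
length of the word.  Take a word `ξ` of minimal rank `r` compatible with a periodic pattern in which more than the `(k / d)`-th part of
the places is free.  If `r > 0`, a fixed minor of size `r` is not zero for all words `ξ η ξ` compatible with the pattern; it has at most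
`k (2 |ξ| + |η|) + 1` coefficients, multihomogeneous of degree `r` in the free vectors of `η`, and these have a common zero in a product
of projective spaces if `η` is long, a contradiction.  So `r = 0`, and `h` is nilpotent on all sequences of a finer pattern in which `ξ`
is prescribed once in a long period.  `F` is countable, so all `h` are made nilpotent one after the other (`f` is a Toeplitz sequence):
the matrices of size `2 q` over `N`, the image of the augmentation ideal, are nilpotent.  A matrix of size `2 q + 1` is not: over `F(s)`
there is `φ` with `∑ s^j x_j φ = φ`.  `R` is `F + M_(2 q + 1)(N)` modulo a maximal ideal containing no power of this matrix, `D` the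
image of the matrices `u v`, `u` a column and `v` a row.
-/

namespace Pool.Agent.Results.MP_79e160_al.NearCounterexample

theorem result (K : Type) [Field K] [Countable K] (q : ℕ) (hq : 0 < q) :
    ∃ (R : Type) (_ : Ring R) (_ : Algebra K R) (Z D : Set R) (I : Fin (2 * q + 1) → AddSubgroup R),
      (∀ J : TwoSidedIdeal R, (∀ x ∈ J, IsNilpotent x) → ∀ x ∈ J, x = 0) ∧
      (∀ x y : R, (∀ r : R, x * r * y = 0) → x = 0 ∨ y = 0) ∧
      (∃ x y : R, x * y ≠ y * x) ∧
      (∀ z ∈ Z, ∀ r : R, z * r = r * z) ∧
      (∀ d ∈ D, ∀ r : R, r * d ∈ D ∧ d * r ∈ D) ∧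
      (∀ i, ∀ x ∈ I i, x ∈ D ∧ ∀ r : R, x * r ∈ I i) ∧
      (∀ x : R, ∃ z ∈ Z, ∃ (g : Fin (2 * q + 1) → R), (∀ i, g i ∈ I i) ∧ x = z + ∑ i, g i) ∧
      (∀ g : Fin (2 * q) → R, (∀ i, g i ∈ D) → IsNilpotent (∑ i, g i)) ∧
      (∀ g y : Fin q → R, (∀ i, g i ∈ D) → IsNilpotent (∑ i, (g i * y i - y i * g i))) ∧
      (∀ z ∈ Z, ∀ (g : Fin q → R) (y : R), (∀ i, g i ∈ D) →
        IsNilpotent ((z + ∑ i, g i) * y - y * (z + ∑ i, g i))) :=
  Pool.Agent.Koe.main_countable2 K hq

end Pool.Agent.Results.MP_79e160_al.NearCounterexample
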