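import Pool.Agent.HComm.Annih

/-!
# Herstein's question: the structure attached to a non-nilpotent element

Let `R` be a ring (an identity element is not assumed) in which every commutator is nilpotent and let
`w` be an element of `R` which is not nilpotent.  Then there is a left ideal `U` of `R` which
contains no power of `w` and has the following properties.

1. `x w ∈ U` if and only if `x ∈ U`.
2. For every `Y ∈ R` no power of `w` lies in `U + U Y + U Y ^ 2 + ...`.
3. If `w ^ m b ∈ U` for some `m ≥ 1` then `U b ⊆ U`.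
4. If `w ^ m b - b w ^ m ∈ U` for some `m ≥ 1` then `w b - b w ∈ U` and `U b ⊆ U`.  The ring
   `{b | w b - b w ∈ U} / U` is commutative and without zero divisors.
5. No power of `w` is a sum of products `r n b t` with `n w ^ i = 0 = w ^ i b`.

Proof.  `U` is a maximal left ideal of `R` with identity adjoined such that (1) holds and `1 ∉ U`.
(2) `∑ n_i Y ^ i ≡ ∑ [n_i, Y ^ i]` modulo `U` for `n_i ∈ U`, and the right hand side is a single
commutator `[Z, Y]`; if it is congruent to `w ^ k`, then `0 = [Z, Y] ^ m ≡ w ^ (k m)`.  (3) If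
`n ∈ U`, `w b ∈ U` and `n b ∉ U` then `w ^ k ∈ U + ∑ R n b w ^ i` by maximality; with
`Y = (1 + b) w` this is in `U + ∑ U Y ^ i`.  (4) If `w b - b w ∈ U` then `U + ∑ U b ^ i` is closed
under right multiplication by `w`, so it is `U` by (2) and maximality.  (3) and (4) for `m > 1`: `U`
is also maximal for `w ^ m`, because by (4) a larger maximal `V` for `w ^ m` satisfies (1) for `w`.
-/

namespace Pool.Agent.Results.MP_79e160_al.PersistentLeftIdeal

open Pool.Agent.HComm

theorem result (R : Type*) [NonUnitalRing R] (hc : ∀ x y : R, Nilp (x * y - y * x)) (w : R)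
    (hw : ¬ Nilp w) :
    ∃ U : AddSubgroup R,
      (∀ r : R, ∀ x ∈ U, r * x ∈ U) ∧
      (∀ x : R, x * w ∈ U ↔ x ∈ U) ∧
      (∀ (Y : R) (s : Finset ℕ) (n : ℕ → R), (∀ i, n i ∈ U) →
        ∀ k : ℕ, pow1 w k - ∑ i ∈ s, n i * pow1 Y i ∉ U) ∧
      (∀ (b : R) (m : ℕ), pow1 w m * b ∈ U → ∀ n ∈ U, n * b ∈ U) ∧
      (∀ (b : R) (m : ℕ), pow1 w m * b - b * pow1 w m ∈ U →
        w * b - b * w ∈ U ∧ ∀ n ∈ U, n * b ∈ U) ∧
      (∀ a b : R, w * a - a * w ∈ U → w * b - b * w ∈ U →
        a * b - b * a ∈ U ∧ (a * b ∈ U → a ∈ U ∨ b ∈ U)) ∧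
      (∀ (s : Finset ℕ) (r n b t : ℕ → R),
        (∀ j ∈ s, ∃ i : ℕ, n j * pow1 w i = 0 ∧ pow1 w i * b j = 0) →
        ∀ k : ℕ, pow1 w k ≠ ∑ j ∈ s, r j * (n j * b j * t j)) := by
  obtain ⟨U, h1, h2, h3, h4, h5, h6⟩ := exists_closed hc hw
  refine ⟨U, h1, h2, h3, h4, h5, h6, ?_⟩
  intro s r n b t h k hk
  have hcan : ∀ i : ℕ, ∀ x : R, x * pow1 w i ∈ U → x ∈ U := by
    intro i
    induction i with
    | zero => intro x hx; exact (h2 x).1 hx
    | succ i ih =>
      intro x hx
      rw [pow1, ← mul_assoc] at hx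
      exact ih x ((h2 _).1 hx)
  have hsum : ∑ j ∈ s, r j * (n j * b j * t j) ∈ U := by
    apply U.sum_mem
    intro j hj
    obtain ⟨i, hi1, hi2⟩ := h j hj
    apply h1
    have hn : n j ∈ U := hcan i _ (by rw [hi1]; exact U.zero_mem)
    have hb := h4 (b j * t j) i (by rw [← mul_assoc, hi2, zero_mul]; exact U.zero_mem) _ hn
    rwa [← mul_assoc] at hb
  have h7 := h3 0 ∅ (fun _ => 0) (fun _ => U.zero_mem) k
  rw [Finset.sum_empty, sub_zero, hk] at h7
  exact h7 hsum

end Pool.Agent.Results.MP_79e160_al.PersistentLeftIdeal
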