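import Pool.Agent.HComm.Transfer

/-!
# Herstein's question in characteristic `p` for sums of two commutators

Let `p` be a prime number and `R` a ring (an identity element is not assumed) with `p R = 0` which
has no nonzero nil two-sided ideals and in which every commutator is nilpotent.  If `[b, f] + [c, g]`
is nilpotent whenever `b` is nilpotent and the right ideal generated by `c` is nil, then `R` is
commutative.  In particular `R` is commutative if every sum of two commutators is nilpotent.

Proof.  Modulo commutators the map `x ↦ x ^ p` is additive; so if `b` and `c` are nilpotent then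
`(b + c) ^ (p ^ e)` is, for large `e`, a sum of commutators of elements of the subring generated by
`b` and `c`, and such a sum is of the form `[b, f] + [c, g]`.  Hence `b + c` is nilpotent if `c`
generates a nil right ideal, and so is every sum of elements of nil right ideals.  If `a ^ 2 = 0`
then `a R` is nil, so the ideal generated by `a` is nil, and `a = 0`.
-/

namespace Pool.Agent.Results.MP_79e160_al.TwoCommutators

open Pool.Agent.HComm Unitization

theorem result (R : Type*) [NonUnitalRing R] (p : ℕ) (hp : p.Prime) (hR : ∀ x : R, p • x = 0)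
    (hno : ∀ I : TwoSidedIdeal R, (∀ x ∈ I, Nilp x) → ∀ x ∈ I, x = 0)
    (hC : ∀ x y : R, Nilp (x * y - y * x))
    (h2 : ∀ b f c g : R, Nilp b → Nilp c → (∀ r : R, Nilp (c * r)) →
      Nilp ((b * f - f * b) + (c * g - g * c))) :
    ∀ x y : R, x * y = y * x := by
  have hpf : Fact p.Prime := ⟨hp⟩
  let _ : Module (ZMod p) R := AddCommGroup.zmodModule hR
  have : IsScalarTower (ZMod p) R R := by
    refine ⟨fun n x y => ?_⟩
    obtain ⟨m, rfl⟩ := ZMod.natCast_zmod_surjective n
    rw [Nat.cast_smul_eq_nsmul, Nat.cast_smul_eq_nsmul]
    exact smul_mul_assoc m x y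
  have : SMulCommClass (ZMod p) R R := by
    refine ⟨fun n x y => ?_⟩
    obtain ⟨m, rfl⟩ := ZMod.natCast_zmod_surjective n
    rw [Nat.cast_smul_eq_nsmul, Nat.cast_smul_eq_nsmul]
    exact (mul_smul_comm m x y).symm
  have h0 : ((p : ℕ) : Unitization (ZMod p) R) = 0 := by
    have h1 : (inlRingHom (ZMod p) R) ((p : ℕ) : ZMod p) = ((p : ℕ) : Unitization (ZMod p) R) :=
      map_natCast _ _
    rw [← h1, ZMod.natCast_self, map_zero]
  have hC' : ∀ x y : Unitization (ZMod p) R, IsNilpotent (x * y - y * x) := by
    intro x y
    rw [comm_eq]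
    exact (nilp_iff _).1 (hC _ _)
  have key := coreA (S := Unitization (ZMod p) R) hp h0 (noNil_unit hno) hC' (by
    intro b f c g hb hc
    obtain ⟨-, h4, h5⟩ := nilR_snd hc
    have h6 := eq_inr hb
    have h7 : Nilp b.snd := by
      rw [nilp_iff (k := ZMod p), ← h6]
      exact hb
    rw [comm_eq b f, comm_eq c g, ← inr_add]
    exact (nilp_iff _).1 (h2 _ _ _ _ h7 h4 h5))
  intro x y
  have h8 := key (inr x) (inr y)
  rw [← inr_mul, ← inr_mul] at h8
  exact inr_injective h8

end Pool.Agent.Results.MP_79e160_al.TwoCommutators
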